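import Pool.Agent.H.MP_bb4c62_an.helper6.NDefs

/-!
Biorthogonal sequences and the continuity of the ring automorphism (Kakutani-Mackey).
-/

namespace Pool.Agent.H.MP_bb4c62_an.helper6.NL

open Complex Metric Set Filter Topology
open Pool.Agent.H.MP_bb4c62_an.helper6.Perturb
open Pool.Agent.H.MP_bb4c62_an.helper6.Gadgets

variable {X : Type*} [NormedAddCommGroup X] [NormedSpace ℂ X]
variable {Y : Type*} [NormedAddCommGroup Y] [NormedSpace ℂ Y]

/-- A finite codimensional intersection of kernels is not contained in a finite dimensional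
subspace. -/
theorem exists_mem_ker_notMem (hX : ¬ Module.Finite ℂ X) (s : Finset (X × (X →L[ℂ] ℂ)))
    (V : Submodule ℂ X) [FiniteDimensional ℂ V] :
    ∃ y : X, (∀ p ∈ s, p.2 y = 0) ∧ y ∉ V := by
  classical
  by_contra hcon
  push Not at hcon
  apply hX
  let T : X →ₗ[ℂ] (s → ℂ) := LinearMap.pi fun p => (p.1.2 : X →ₗ[ℂ] ℂ)
  have hk : LinearMap.ker T ≤ V := by
    intro y hy
    apply hcon y
    intro p hp
    have h1 : T y = 0 := hy
    exact congrFun h1 ⟨p, hp⟩
  have h1 : Module.Finite ℂ (LinearMap.ker T) :=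
    Submodule.finiteDimensional_of_le hk
  have h2 : Module.Finite ℂ (X ⧸ LinearMap.ker T) :=
    Module.Finite.equiv T.quotKerEquivRange.symm
  exact Module.Finite.of_submodule_quotient (LinearMap.ker T)

/-- A point outside a finite dimensional subspace is separated from it. -/
theorem exists_dual_sep (V : Submodule ℂ X) [FiniteDimensional ℂ V] {y : X} (hy : y ∉ V) :
    ∃ g : X →L[ℂ] ℂ, g y = 1 ∧ ∀ v ∈ V, g v = 0 := by
  classical
  let b := Module.finBasis ℂ V
  let v : Option (Fin (Module.finrank ℂ V)) → X := fun o => o.casesOn' y fun i => (b i : X)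
  have hspan : Submodule.span ℂ (Set.range fun i => (b i : X)) = V := by
    have h1 : (Set.range fun i => (b i : X)) = V.subtype '' (Set.range b) := by
      rw [← Set.range_comp]
      rfl
    rw [h1, Submodule.span_image, b.span_eq, Submodule.map_top, Submodule.range_subtype]
  have hv : LinearIndependent ℂ v := by
    rw [linearIndependent_option']
    refine ⟨?_, ?_⟩
    · exact b.linearIndependent.map' V.subtype (Submodule.ker_subtype V)
    · rw [hspan]
      exact hy
  obtain ⟨g, hg⟩ := exists_dual hv (fun o => o.elim 1 fun _ => 0)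
  refine ⟨g, hg none, ?_⟩
  intro w hw
  rw [← hspan] at hw
  induction hw using Submodule.span_induction with
  | mem x hx =>
    obtain ⟨i, rfl⟩ := hx
    exact hg (some i)
  | zero => exact map_zero g
  | add a c _ _ ha hc => rw [map_add, ha, hc, add_zero]
  | smul a c _ hc => rw [map_smul, hc, smul_zero]

theorem exists_biorthogonal (hX : ¬ Module.Finite ℂ X) :
    ∃ (x : ℕ → X) (f : ℕ → X →L[ℂ] ℂ), ∀ m n, f m (x n) = if m = n then 1 else 0 := by
  classical
  obtain ⟨F, hF1, hF2⟩ := exists_seq_of_forall_finset_exists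
    (fun p : X × (X →L[ℂ] ℂ) => p.2 p.1 = 1) (fun p q => q.2 p.1 = 0 ∧ p.2 q.1 = 0) (by
      intro s _
      let V : Submodule ℂ X := Submodule.span ℂ ((s.image Prod.fst : Finset X) : Set X)
      have : FiniteDimensional ℂ V := FiniteDimensional.span_finset ℂ _
      obtain ⟨y, hy1, hy2⟩ := exists_mem_ker_notMem hX s V
      obtain ⟨g, hg1, hg2⟩ := exists_dual_sep V hy2
      refine ⟨(y, g), hg1, fun p hp => ⟨?_, hy1 p hp⟩⟩
      exact hg2 _ (Submodule.subset_span (by
        simp only [Finset.coe_image, Set.mem_image, Finset.mem_coe]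
        exact ⟨p, hp, rfl⟩)))
  refine ⟨fun n => (F n).1, fun n => (F n).2, fun m n => ?_⟩
  rcases lt_trichotomy m n with h | h | h
  · rw [if_neg h.ne]
    exact (hF2 m n h).2
  · subst h
    rw [if_pos rfl]
    exact hF1 m
  · rw [if_neg h.ne']
    exact (hF2 n m h).1

/-- A ring automorphism of `ℂ` which is bounded on some ball is the identity or the
conjugation. -/
theorem tau_of_bounded (τ : ℂ ≃+* ℂ) (r M : ℝ) (hr : 0 < r)
    (h : ∀ z : ℂ, ‖z‖ ≤ r → ‖τ z‖ ≤ M) :
    τ = RingEquiv.refl ℂ ∨ (∀ c : ℂ, τ c = (starRingEnd ℂ) c) := by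
  have hc0 : ContinuousAt (τ : ℂ →+* ℂ) 0 := by
    rw [Metric.continuousAt_iff]
    intro ε hε
    obtain ⟨n, hn⟩ := exists_nat_gt (M / ε)
    have hn0 : (0 : ℝ) < n + 1 := by positivity
    refine ⟨r / (n + 1), by positivity, fun {z} hz => ?_⟩
    rw [dist_zero_right] at hz
    rw [map_zero, dist_zero_right]
    have h1 : ‖((n + 1 : ℕ) : ℂ) * z‖ ≤ r := by
      rw [norm_mul, Complex.norm_natCast]
      push_cast
      have := (lt_div_iff₀ hn0).1 hz
      rw [mul_comm]
      exact this.le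
    have h2 := h _ h1
    rw [map_mul, map_natCast, norm_mul, Complex.norm_natCast] at h2
    push_cast at h2
    have h3 : M < ε * (n + 1) := by
      have := (div_lt_iff₀ hε).1 hn
      nlinarith
    have h4 : (n + 1 : ℝ) * ‖τ z‖ < (n + 1) * ε := by linarith
    exact lt_of_mul_lt_mul_left h4 hn0.le
  have hc : Continuous (τ : ℂ →+* ℂ) :=
    continuous_of_continuousAt_zero (τ : ℂ →+* ℂ) hc0
  rcases Complex.ringHom_eq_id_or_conj_of_continuous hc with h1 | h1
  · left
    ext z
    exact congrArg (fun g : ℂ →+* ℂ => g z) h1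
  · right
    intro z
    exact congrArg (fun g : ℂ →+* ℂ => g z) h1

theorem tau_continuous {E D Y : Type*} [NormedAddCommGroup E] [NormedSpace ℂ E]
    [NormedAddCommGroup D] [NormedSpace ℂ D] [CompleteSpace D]
    [NormedAddCommGroup Y] [NormedSpace ℂ Y] (P : D →L[ℂ] E →L[ℂ] ℂ)
    (x : ℕ → E) (f : ℕ → D) (hxf : ∀ m n, P (f m) (x n) = if m = n then 1 else 0)
    (τ : ℂ ≃+* ℂ) (S : E → Y)
    (hdual : ∀ d : D, ∃ g : Y →L[ℂ] ℂ, ∀ u : E, g (S u) = τ (P d u)) :
    τ = RingEquiv.refl ℂ ∨ (∀ c : ℂ, τ c = (starRingEnd ℂ) c) := by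
  by_cases hb : ∃ r M : ℝ, 0 < r ∧ ∀ z : ℂ, ‖z‖ ≤ r → ‖τ z‖ ≤ M
  · obtain ⟨r, M, hr, h⟩ := hb
    exact tau_of_bounded τ r M hr h
  · exfalso
    push Not at hb
    have hex : ∀ n : ℕ, ∃ z : ℂ, ‖z‖ ≤ (1 / 2) ^ n / (1 + ‖f n‖) ∧
        ((n : ℝ) + 1) * (1 + ‖S (x n)‖) < ‖τ z‖ := by
      intro n
      exact hb _ _ (by positivity)
    choose μ hμ1 hμ2 using hex
    have hs : Summable fun n => μ n • f n := by
      refine Summable.of_norm_bounded (g := fun n : ℕ => (1 / 2 : ℝ) ^ n)
        (summable_geometric_of_lt_one (by norm_num) (by norm_num)) fun n => ?_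
      rw [norm_smul]
      have h1 : (0 : ℝ) < 1 + ‖f n‖ := by positivity
      have h2 := (le_div_iff₀ h1).1 (hμ1 n)
      have h3 : ‖μ n‖ * ‖f n‖ ≤ ‖μ n‖ * (1 + ‖f n‖) :=
        mul_le_mul_of_nonneg_left (by linarith) (norm_nonneg _)
      exact h3.trans h2
    obtain ⟨g, hg⟩ := hdual (∑' n, μ n • f n)
    have hval : ∀ n, P (∑' m, μ m • f m) (x n) = μ n := by
      intro n
      have h1 : P (∑' m, μ m • f m) (x n)
          = ((ContinuousLinearMap.apply ℂ ℂ (x n)).comp P) (∑' m, μ m • f m) := rfl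
      rw [h1, ContinuousLinearMap.map_tsum _ hs, tsum_eq_single n]
      · simp [hxf]
      · intro m hm
        simp [hxf, hm]
    have hlt : ∀ n : ℕ, (n : ℝ) + 1 < ‖g‖ := by
      intro n
      have h1 : ‖τ (μ n)‖ ≤ ‖g‖ * ‖S (x n)‖ := by
        have := hg (x n)
        rw [hval n] at this
        rw [← this]
        exact g.le_opNorm _
      have h2 := hμ2 n
      have h3 : ‖g‖ * ‖S (x n)‖ ≤ ‖g‖ * (1 + ‖S (x n)‖) :=
        mul_le_mul_of_nonneg_left (by linarith) (norm_nonneg _)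
      have h4 : ((n : ℝ) + 1) * (1 + ‖S (x n)‖) < ‖g‖ * (1 + ‖S (x n)‖) := by linarith
      exact lt_of_mul_lt_mul_right h4 (by positivity)
    obtain ⟨n, hn⟩ := exists_nat_gt ‖g‖
    have := hlt n
    linarith

end Pool.Agent.H.MP_bb4c62_an.helper6.NL
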